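import Pool.Agent.T2H73.BL.Main
import Pool.Agent.T2H73.BL.Exist

/-!
# The cutoff window of the balanced generalised Bernoulli–Laplace chain is of order exactly `n`

Full positive answer to Q1: for every `d ≥ 2` and every probability distribution `μ` on `S_d` with
irreducible `U` there is no sequence `w_n = o(n)` such that the balanced chains have
cutoff with window of size `O(w_n)`.

Method. (1) If `d_n(t) ≤ 1/4` then the means of the numbers of balls at time `t` are within
`C √n` of `n/d`, for every initial state (the variances are at most `C n` for all times); the means
follow a linear equation with rates of order `1/n`, so they are within `C' √n` already at time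
`t - 2n`. (2) So at time `t - 2n` the chain is, with probability at least `3/4`, in the ball of
radius `K √n` around the equilibrium, from every initial state. (3) The laws at time `δ n` of the
chains started from two states of this ball overlap at least by a constant: the ideal walk with
independent uniform colours overlaps with its translates by `O(√n)` (binomial laws overlap with
their translates), and if `T_k`, `I_k`, `J_k` are the `k`-step kernels of the true chain, of the
ideal walk and of the walk weighted by the inverse density, then `I_k² ≤ T_k J_k` by the
Cauchy–Schwarz inequality, and the mass of `J_k` is bounded for `k ≤ δ n`. (4) So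
`d_n(t_mix - n/2) ≤ 1 - ε` for all large `n`, which excludes a window `o(n)`.
-/

set_option autoImplicit false

namespace Pool.Agent.Results.MP_820675_pr.WindowOfOrderN

open Filter Pool.Agent.T2H73.BL

/-- For every `d ≥ 2` and every `μ` with `U` irreducible (`Good μ`): stationary laws exist (for
`n ≥ 1` balls of every colour), and for the stationary laws `π n` there is no sequence `w n = o(n)`
such that the balanced chains have cutoff with window of size `O(w n)`. -/
theorem result : ∀ d : ℕ, 2 ≤ d → ∀ μ : Equiv.Perm (Fin d) → ℝ, Good μ →
    (∀ n : ℕ, 1 ≤ n → ∃ π : State d n → ℝ, IsStationary μ n π) ∧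
    ∀ π : ∀ n, State d n → ℝ, (∀ n : ℕ, 1 ≤ n → IsStationary μ n (π n)) →
      ¬ ∃ w : ℕ → ℝ, w =o[atTop] (fun n : ℕ => (n : ℝ)) ∧ HasCutoffWindow μ π w :=
  fun _ hd _ hμ => ⟨fun _ hn => exists_stationary hμ hn, fun π hπ => main hd hμ π hπ⟩

end Pool.Agent.Results.MP_820675_pr.WindowOfOrderN
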